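import Pool.Agent.H9.TV.Main

/-!
# MP_8865d3_nt: Vojta's conjecture with the multiplier ideal correction on smooth projective toric
# varieties, for all ideals generated by products of Cox linear forms

Let `X` be a smooth projective toric variety over the number field `k`, given by its fan, and let
`X_ρ` be its Cox coordinates, one for each ray. The coordinates `X_ρ` of the same degree in the class
group of `X` span a space of sections; the group of the linear substitutions of these coordinates acts
on `X` (it is a reductive subgroup of the automorphism group, for instance `GL_{N+1}` for `X = ℙ^N`,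
`GL_{n+1} × GL_{m+1}` for `ℙ^n × ℙ^m`, `GL_2 × G_m^2` for the Hirzebruch surfaces). A Cox linear form
is a nonzero linear combination of coordinates of one degree: its divisor is a translate of an
invariant prime divisor by this group (after an extension of the field).

Fix finitely many Cox linear forms `L l` with coefficients in a finite extension `K` of `k`, in any
position. There is one finite set `Z` of Cox linear forms over `k`, which depends only on the `L l`,
such that the inequality of the conjecture

`h_{K_X}(x) + ∑_{v ∈ S} λ_I(x, v) - ∑_{v ∈ S} λ_{I⁻}(x, v) ≤ ε h_A(x) + C`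

holds for all points `x` of `X` over `k` off `Z = 0`, ALL nonzero ideal sheaves `I` generated by forms
over `k` which are products of the `L l` over `K`, ALL finite sets `S` of places of `k`, ALL ample
divisors `A` and ALL `ε > 0`. (`Z` contains the coordinates; the points off `Z` lie in the torus, and
as `X` is smooth all points of the torus over `k` have Cox coordinates in `k`.) No `L l` vanishes at a
point of `X` over `k` off `Z = 0`, so the zero set of `I` has no such points and `λ_I(x, v)` is finite.

The multiplier ideal `I⁻` is described by its valuative criterion, as in the earlier results on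
arrangements in projective spaces: a local section `u` is in `I⁻` if and only if
`w(u) + A(w) ≥ w(I)` for all real valuations `w` of the function field, `A(w)` the log discrepancy;
`exp (-A(w))` is the norm of the canonical form in the lattice of logarithmic differential forms.

The proof uses Vojta's refinement of the subspace theorem for each degree; the base loci of the
spaces spanned by the coordinates of one degree are controlled by the product formula.
-/

set_option autoImplicit false

namespace Pool.Agent.Results.MP_8865d3_nt.CoxLinearArrangements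

open MvPolynomial Pool.Agent.H9.TV Pool.Agent.H9.TV.Fan

/-- **Vojta's conjecture with multiplier ideals on smooth projective toric varieties, for all ideals
generated by products of Cox linear forms.** -/
theorem result (k : Type) [Field k] [NumberField k] (K : Type) [Field K] [NumberField K]
    [Algebra k K] (d N : ℕ) (F : Fan d N) (hF : ∃ A, F.IsAmple A)
    (ι : Type) [Finite ι] (L : ι → Fin N → K) (hL : ∀ l, F.IsCoxLinear (L l)) :
    ∃ Z : Finset (Fin N → k), (∀ z ∈ Z, F.IsCoxLinear z) ∧ (∀ ρ, Pi.single ρ 1 ∈ Z) ∧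
      (∀ x : Fin N → k, (∀ z ∈ Z, ∑ j, z j * x j ≠ 0) →
        ∀ l, ∑ ρ, L l ρ * algebraMap k K (x ρ) ≠ 0) ∧
      ∀ (a : ℕ) (P : Fin a → MvPolynomial (Fin N) k) (e : Fin a → Fin N → ℤ),
        (∀ j, IsProduct L (P j) ∧ F.IsForm (e j) (P j)) → (∃ j, P j ≠ 0) →
      ∀ (b : ℕ) (u : Fin b → MvPolynomial (Fin N) k) (e' : Fin b → Fin N → ℤ),
        (∀ i, F.IsForm (e' i) (u i) ∧ F.InMultiplierIdeal P (u i)) →
      ∀ (S : Finset (Place k)) (A : Fin N → ℤ), F.IsAmple A → ∀ ε : ℝ, 0 < ε →
      ∃ C : ℝ, ∀ x : Fin N → k, (∀ z ∈ Z, ∑ j, z j * x j ≠ 0) → (∃ i, eval x (u i) ≠ 0) →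
        F.height (fun _ => -1) x + ∑ v ∈ S, F.localHeight v e P x -
          ∑ v ∈ S, F.localHeight v e' u x ≤ ε * F.height A x + C := by
  classical
  have := Fintype.ofFinite ι
  obtain ⟨Z0, hZ0, hZ01, hmain⟩ := main (k := k) F hF K L hL
  have hdes : ∀ l, ∃ z : Fin N → k, F.IsCoxLinear z ∧ ∀ x : Fin N → k, ∑ j, z j * x j ≠ 0 →
      ∑ ρ, L l ρ * algebraMap k K (x ρ) ≠ 0 := by
    intro l
    obtain ⟨hl0, hl1⟩ := hL l
    obtain ⟨ρ0, hρ0⟩ : ∃ ρ, L l ρ ≠ 0 := by
      by_contra hcon
      push Not at hcon
      exact hl0 (funext hcon)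
    obtain ⟨φ, hφ⟩ : ∃ φ : Module.Dual k K, φ (L l ρ0) ≠ 0 := by
      by_contra hcon
      push Not at hcon
      exact hρ0 ((Module.forall_dual_apply_eq_zero_iff k (L l ρ0)).1 hcon)
    refine ⟨fun ρ => φ (L l ρ), ⟨fun h0 => hφ (congrFun h0 ρ0), fun ρ τ hρ hτ => ?_⟩,
      fun x hx h0 => hx ?_⟩
    · exact hl1 ρ τ (fun h => hρ (by simp only [h, map_zero]))
        (fun h => hτ (by simp only [h, map_zero]))
    · have h1 : ∑ j, φ (L l j) * x j = φ (∑ ρ, L l ρ * algebraMap k K (x ρ)) := by
        rw [map_sum]
        refine Finset.sum_congr rfl fun j _ => ?_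
        rw [mul_comm (L l j), ← Algebra.smul_def, map_smul, smul_eq_mul, mul_comm]
      rw [h1, h0, map_zero]
  choose zl hzl0 hzl using hdes
  set Z : Finset (Fin N → k) := Z0 ∪ Finset.univ.image zl with hZdef
  have hZ : ∀ z ∈ Z, F.IsCoxLinear z := by
    intro z hz
    rcases Finset.mem_union.1 hz with h | h
    · exact hZ0 z h
    · obtain ⟨l, -, rfl⟩ := Finset.mem_image.1 h
      exact hzl0 l
  have hZ1 : ∀ ρ, (Pi.single ρ 1 : Fin N → k) ∈ Z := fun ρ => Finset.mem_union_left _ (hZ01 ρ)
  refine ⟨Z, hZ, hZ1, fun x hx l => hzl l x (hx _ (Finset.mem_union_right _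
    (Finset.mem_image_of_mem _ (Finset.mem_univ l)))),
    fun a P e hP hne b u e' hu S A hA ε hε => ?_⟩
  choose s c σ hfac using fun j => (hP j).1
  obtain ⟨n, hn, hbd⟩ := hA.height_bound
  have hn' : (0 : ℝ) < n := Nat.cast_pos.2 hn
  obtain ⟨C, hC⟩ := hmain a P e c s σ hfac (fun j => (hP j).2) hne b u e' (fun i => (hu i).1)
    (fun i => (hu i).2) S (ε / n) (by positivity)
  have hD : (0 : ℝ) < Module.finrank ℚ k := Nat.cast_pos.2 Module.finrank_pos
  refine ⟨C / Module.finrank ℚ k, fun x hZx hux => ?_⟩
  have hx : ∀ ρ, x ρ ≠ 0 := by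
    intro ρ
    have h1 := hZx (Pi.single ρ 1) (hZ1 ρ)
    have h2 : ∑ j, (Pi.single ρ 1 : Fin N → k) j * x j = x ρ := by
      rw [Finset.sum_eq_single ρ]
      · simp
      · intro j _ hj
        rw [Pi.single_eq_of_ne hj, zero_mul]
      · intro h
        exact absurd (Finset.mem_univ _) h
    rwa [h2] at h1
  have h1 := hC x (fun z hz => hZx z (Finset.mem_union_left _ hz)) hux
  have h2 : ∑ v ∈ S, F.localHeight v e P x - ∑ v ∈ S, F.localHeight v e' u x =
      (∑ v ∈ S, mult v * (-Real.log (⨆ j, F.secNorm (absAt v) (e j) (P j) x) -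
        (-Real.log (⨆ i, F.secNorm (absAt v) (e' i) (u i) x)))) / (Module.finrank ℚ k : ℝ) := by
    rw [← Finset.sum_sub_distrib, Finset.sum_div]
    refine Finset.sum_congr rfl fun v _ => ?_
    unfold Fan.localHeight
    ring
  have h3 : F.height (fun _ => -1) x = -(∑ ρ, F.hh x ρ) / (Module.finrank ℚ k : ℝ) := by
    rw [F.height_eq hx]
    congr 1
    rw [← Finset.sum_neg_distrib]
    exact Finset.sum_congr rfl fun ρ _ => by push_cast; ring
  have h4 := hbd k x hx
  rw [add_sub_assoc, h2, h3, F.height_eq hx]
  have h5 : ε / n * ∑ ρ, F.hh x ρ ≤ ε * ∑ ρ, (A ρ : ℝ) * F.hh x ρ := by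
    have h6 := mul_le_mul_of_nonneg_left h4 (div_nonneg hε.le hn'.le)
    refine h6.trans (le_of_eq ?_)
    field_simp
  rw [← add_div, ← mul_div_assoc, ← add_div]
  refine div_le_div_of_nonneg_right ?_ hD.le
  linarith

end Pool.Agent.Results.MP_8865d3_nt.CoxLinearArrangements
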