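import Pool.Agent.H42.AP.Defs2
import Pool.Agent.H42.AP.All2
import Pool.Agent.H42.AP.INF

/-!
# Vojta's inequality with multiplier ideals on the line at all algebraic numbers of degree `d`

`X = ℙ¹` over `ℚ`, `I` the ideal of the divisor `∑ m_l α_l`, `m_l ≥ 1`, for different points
`α_l = [a_l : b_l]`, `l < q`, of `ℙ¹(ℚ)` (coprime integers). Then `I⁻` is the ideal of
`∑ (m_l - 1) α_l`, `λ_I = ∑ m_l λ_l`, `λ_{I⁻} = ∑ (m_l - 1) λ_l` with the local heights `λ_l` of the
points `α_l`, and `h_K = -2 h`. `S` consists of the infinite place and a finite set of primes. For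
`d ≥ 2` and `0 ≤ κ < min(q, d)` let `Exceptions` be the set of all algebraic numbers `x` of degree `d` (in
all number fields of degree `d` together), of height `H(x) ≤ B`, with
`h_K(x) + ∑_{v ∈ S} λ_I(x, v) - ∑_{v ∈ S} λ_{I⁻}(x, v) ≥ (κ - 2) h(x) - c`. It has

(1) at least `C B^(d (d + 1 - κ))` elements if `B` is large, for every `q` and every `S`;
(2) at most `C B^(d (d + 1 - κ) + δ)` elements if `q ≤ d + 1`, and also for every `q` if `S` consists of the
infinite place only.

So the exponent is exactly `d (d + 1 - κ)` if `q ≤ d + 1`, and for every `q` if `S` is the infinite place.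
The upper bound (2) is known.
-/

set_option autoImplicit false

open NumberField IsDedekindDomain

namespace Pool.Agent.Results.MP_8865d3_nt.PointsOfDegreeOnTheLine

section

variable {K : Type} [Field K] [NumberField K]

/-- the absolute logarithmic height of `[y : 1]` -/
noncomputable def height (y : K) : ℝ := Height.logHeight₁ y / Module.finrank ℚ K

open Classical in
/-- `∑_{v ∈ S} λ_α(y, v)`, `α = [a : b]` with coprime integers, `S` the infinite place and the primes in
the given finite set: the sum of the local heights over the places of `K` above `S`, with the weights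
`[K_w : ℚ_v] / [K : ℚ]`. For a finite place `w = FinitePlace.mk w` is the absolute value
`|x|_w = N w ^ (-ord_w x)`, which contains the local degree. -/
noncomputable def proximity (S : Finset ℕ) (a b : ℤ) (y : K) : ℝ :=
  ((∑ w : InfinitePlace K, (w.mult : ℝ) *
      Real.log (max 1 (w y) * max |(a : ℝ)| |(b : ℝ)| / w ((b : K) * y - a))) +
    ∑ᶠ w : HeightOneSpectrum (𝓞 K), if ∃ p ∈ S, p.Prime ∧ (p : 𝓞 K) ∈ w.asIdeal then
      Real.log (max 1 (FinitePlace.mk w y) / FinitePlace.mk w ((b : K) * y - a)) else 0) /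
    Module.finrank ℚ K

/-- `∑_{v ∈ S} λ_J(y, v)` for the ideal `J` of the divisor `∑ m_l α_l` -/
noncomputable def lam (S : Finset ℕ) {q : ℕ} (a b : Fin q → ℤ) (m : Fin q → ℕ) (y : K) : ℝ :=
  ∑ l, (m l : ℝ) * proximity S (a l) (b l) y

/-- the left hand side of Q1: `h_K(y) + ∑_{v ∈ S} λ_I(y, v) - ∑_{v ∈ S} λ_{I⁻}(y, v)` for the ideal `I` of
`∑ m_l α_l`; `I⁻` is the ideal of `∑ (m_l - 1) α_l` -/
noncomputable def lhs (S : Finset ℕ) {q : ℕ} (a b : Fin q → ℤ) (m : Fin q → ℕ) (y : K) : ℝ :=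
  -2 * height y + lam S a b m y - lam S a b (fun l => m l - 1) y

end

/-- the algebraic numbers `x` of degree `d` with `H(x) ≤ B` for which the left hand side of Q1 is at least
`(κ - 2) h(x) - c` -/
def Exceptions (d : ℕ) (S : Finset ℕ) {q : ℕ} (a b : Fin q → ℤ) (m : Fin q → ℕ) (κ c B : ℝ) : Set ℂ :=
  {x | ∃ (K : Type) (_ : Field K) (_ : NumberField K) (φ : K →+* ℂ) (y : K), φ y = x ∧
    Module.finrank ℚ K = d ∧ IntermediateField.adjoin ℚ {y} = ⊤ ∧
    height y ≤ Real.log B ∧ (κ - 2) * height y - c ≤ lhs S a b m y}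

open Classical in
lemma lhs_eq {K : Type} [Field K] [NumberField K] (S : Finset ℕ) {q : ℕ} (a b : Fin q → ℤ)
    (m : Fin q → ℕ) (hm : ∀ l, 1 ≤ m l) (y : K) :
    lhs S a b m y = -2 * height y +
      (∑ l, Pool.Agent.H42.AP.Prox S (a l) (b l) y) / Module.finrank ℚ K := by
  have hp : ∀ s t : ℤ, proximity S s t y =
      Pool.Agent.H42.AP.Prox S s t y / Module.finrank ℚ K := by
    intro s t
    unfold proximity Pool.Agent.H42.AP.Prox
    congr 2
    refine finsum_congr fun v => ?_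
    by_cases h : ∃ p ∈ S, p.Prime ∧ (p : 𝓞 K) ∈ v.asIdeal
    · have h2 : ¬ Pool.Agent.H42.AP.Off S v := by
        obtain ⟨p, h3, h4, h5⟩ := h
        exact fun h6 => h6 p h3 h4 h5
      rw [if_pos h, if_neg h2]
    · have h2 : Pool.Agent.H42.AP.Off S v := fun p h3 h4 h5 => h ⟨p, h3, h4, h5⟩
      rw [if_neg h, if_pos h2]
  unfold lhs lam
  rw [add_sub_assoc, ← Finset.sum_sub_distrib, Finset.sum_div]
  congr 1
  refine Finset.sum_congr rfl fun l _ => ?_
  rw [hp, Nat.cast_sub (hm l)]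
  push_cast
  ring

lemma exceptions_eq {d : ℕ} (hd : 1 ≤ d) (S : Finset ℕ) {q : ℕ} (a b : Fin q → ℤ) (m : Fin q → ℕ)
    (hm : ∀ l, 1 ≤ m l) (κ c B : ℝ) :
    Exceptions d S a b m κ c B = Pool.Agent.H42.AP.ExcP d S a b κ (d * c) B := by
  have hd0 : (0 : ℝ) < d := by exact_mod_cast hd
  ext x
  constructor
  · rintro ⟨K, _, _, φ, y, h1, h2, h3, h4, h5⟩
    refine ⟨K, inferInstance, inferInstance, φ, y, h1, h2, ?_, ?_, ?_⟩
    · rw [← h2]
      exact (Field.primitive_element_iff_minpoly_natDegree_eq ℚ y).1 h3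
    · unfold height at h4
      rw [h2, div_le_iff₀ hd0] at h4
      linarith
    · rw [lhs_eq S a b m hm] at h5
      unfold height at h5
      rw [h2] at h5
      have h6 : κ * (Height.logHeight₁ y / d) - c ≤
          (∑ l, Pool.Agent.H42.AP.Prox S (a l) (b l) y) / d := by linarith
      rw [le_div_iff₀ hd0] at h6
      refine le_trans (le_of_eq ?_) h6
      field_simp
  · rintro ⟨K, _, _, φ, y, h1, h2, h3, h4, h5⟩
    refine ⟨K, inferInstance, inferInstance, φ, y, h1, h2, ?_, ?_, ?_⟩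
    · rw [Field.primitive_element_iff_minpoly_natDegree_eq, h2]
      exact h3
    · unfold height
      rw [h2, div_le_iff₀ hd0]
      linarith
    · rw [lhs_eq S a b m hm]
      unfold height
      rw [h2]
      have h6 : κ * (Height.logHeight₁ y / d) - c ≤
          (∑ l, Pool.Agent.H42.AP.Prox S (a l) (b l) y) / d := by
        rw [le_div_iff₀ hd0]
        refine le_trans (le_of_eq ?_) h5
        field_simp
      linarith

/-- **The exact number of exceptions to Vojta's inequality with multiplier ideals on the line, among all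
algebraic numbers of degree `d`.** -/
theorem result (d q : ℕ) (hd : 2 ≤ d) (a b : Fin q → ℤ) (hab : ∀ l, IsCoprime (a l) (b l))
    (hne : ∀ i j, i ≠ j → a i * b j ≠ a j * b i) (m : Fin q → ℕ) (hm : ∀ l, 1 ≤ m l)
    (S : Finset ℕ) (κ c : ℝ) (hκ : 0 ≤ κ) (hκq : κ < q) (hκd : κ < d) :
    (∃ C B₀ : ℝ, 0 < C ∧ ∀ B : ℝ, B₀ ≤ B →
      C * B ^ (d * (d + 1 - κ)) ≤ ((Exceptions d S a b m κ c B).ncard : ℝ)) ∧
    (q ≤ d + 1 ∨ S = ∅ → ∀ δ : ℝ, 0 < δ → ∃ C : ℝ, ∀ B : ℝ, 1 ≤ B →
      (Exceptions d S a b m κ c B).Finite ∧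
      ((Exceptions d S a b m κ c B).ncard : ℝ) ≤ C * B ^ (d * (d + 1 - κ) + δ)) := by
  have hp : Pool.Agent.H42.AP.Pts a b := ⟨hab, hne⟩
  have hq : 1 ≤ q := by
    by_contra hcon
    have : q = 0 := by omega
    subst this
    simp at hκq
    linarith
  simp only [exceptions_eq (show 1 ≤ d by omega) S a b m hm]
  refine ⟨?_, fun h0 δ hδ => ?_⟩
  · by_cases h4 : q ≤ d
    · exact Pool.Agent.H42.AP.low2' d q hd hq h4 a b hp S κ (d * c) hκ hκq
    · obtain ⟨C, -, hC⟩ := Pool.Agent.H42.AP.up2' d q hd (by omega) a b hp S κ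
        (d * c + ∑ l, d * Real.log (max |(a l : ℝ)| |(b l : ℝ)|)) 1 hκ hκq.le one_pos
      refine Pool.Agent.H42.AP.infLowCount d q hd (by omega) a b hp S κ (d * c) hκ hκd fun B hB => ?_
      exact (hC B hB).1.subset (Pool.Agent.H42.AP.sub' d q hd a b hp S κ (d * c) B)
  · by_cases h4 : q ≤ d + 1
    · obtain ⟨C, -, hC⟩ := Pool.Agent.H42.AP.up1' d q hd h4 a b hp S κ
        (d * c + ∑ l, d * Real.log (max |(a l : ℝ)| |(b l : ℝ)|)) δ hκ hκq.le hδ
      refine ⟨C, fun B hB => ?_⟩
      obtain ⟨h5, h6⟩ := hC B hB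
      have h7 := Pool.Agent.H42.AP.sub' d q hd a b hp S κ (d * c) B
      exact ⟨h5.subset h7, le_trans (by exact_mod_cast Set.ncard_le_ncard h7 h5) h6⟩
    · have h5 := h0.resolve_left h4
      subst h5
      exact Pool.Agent.H42.AP.infUpCount d q hd (by omega) a b hp κ (d * c) δ hκ hκd.le hδ

end Pool.Agent.Results.MP_8865d3_nt.PointsOfDegreeOnTheLine
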